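import Mathlib

namespace Pool.Agent.Results.MP_700e60_co.Counterexample
open Polynomial

/-- A polynomial pattern: a finite family of nonzero polynomials with coefficients in `ℕ` and
constant term `0`. -/
def IsPattern {m : ℕ} (F : Finset (MvPolynomial (Fin m) ℕ)) : Prop :=
  ∀ P ∈ F, P ≠ 0 ∧ MvPolynomial.constantCoeff P = 0

/-- Membership in `T`: nonzero one-variable polynomials over `ℕ` with constant term `0`. -/
def InT (p : ℕ[X]) : Prop := p ≠ 0 ∧ p.coeff 0 = 0

/-- Partition regularity over `T`. -/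
def RegT {m : ℕ} (F : Finset (MvPolynomial (Fin m) ℕ)) : Prop :=
  ∀ (r : ℕ) (c : ℕ[X] → Fin r), ∃ a : Fin m → ℕ[X], (∀ i, InT (a i)) ∧
    ∀ P ∈ F, ∀ Q ∈ F, c (MvPolynomial.aeval a P) = c (MvPolynomial.aeval a Q)

/-- Partition regularity over the positive integers, with pairwise distinct values and with all
variables larger than any given bound. -/
def StrongRegN {m : ℕ} (F : Finset (MvPolynomial (Fin m) ℕ)) : Prop :=
  ∀ (r : ℕ) (c : ℕ → Fin r) (M : ℕ), ∃ a : Fin m → ℕ, (∀ i, M < a i) ∧
    (∀ P ∈ F, ∀ Q ∈ F, c (MvPolynomial.eval a P) = c (MvPolynomial.eval a Q)) ∧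
    ∀ P ∈ F, ∀ Q ∈ F, P ≠ Q → MvPolynomial.eval a P ≠ MvPolynomial.eval a Q

def s : ℕ → ℕ × ℕ
  | 0 => (1, 1)
  | n + 1 => (3 * (s n).1 + 2 * (s n).2 + 1, 4 * (s n).1 + 3 * (s n).2 + 1)

theorem s_eq (n : ℕ) : 2 * (s n).1 ^ 2 = (s n).2 ^ 2 + (s n).2 := by
  induction n with
  | zero => simp [s]
  | succ n ih => simp only [s]; nlinarith

theorem s_mono : StrictMono fun n => (s n).1 := by
  refine strictMono_nat_of_lt_succ fun n => ?_
  simp only [s]
  omega

theorem s_mono2 : StrictMono fun n => (s n).2 := by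
  refine strictMono_nat_of_lt_succ fun n => ?_
  simp only [s]
  omega

theorem result : ∃ F : Finset (MvPolynomial (Fin 2) ℕ),
    IsPattern F ∧ F.card = 2 ∧ StrongRegN F ∧ ¬ RegT F := by
  classical
  have hne : (2 * MvPolynomial.X 0 ^ 2 : MvPolynomial (Fin 2) ℕ) ≠
      MvPolynomial.X 1 ^ 2 + MvPolynomial.X 1 := by
    intro h
    have := congrArg (MvPolynomial.eval ![1, 0]) h
    simp at this
  refine ⟨{2 * MvPolynomial.X 0 ^ 2, MvPolynomial.X 1 ^ 2 + MvPolynomial.X 1}, ?_,
    Finset.card_pair hne, ?_, ?_⟩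
  · intro P hP
    simp only [Finset.mem_insert, Finset.mem_singleton] at hP
    rcases hP with rfl | rfl
    · refine ⟨fun h => ?_, by simp⟩
      have := congrArg (MvPolynomial.eval ![1, 1]) h
      simp at this
    · refine ⟨fun h => ?_, by simp⟩
      have := congrArg (MvPolynomial.eval ![1, 1]) h
      simp at this
  · intro r c M
    obtain ⟨i, j, hij, h⟩ := Finite.exists_ne_map_eq_of_infinite
      (fun n : ℕ => c (2 * (s (n + M + 1)).1 ^ 2))
    have hd : 2 * (s (i + M + 1)).1 ^ 2 ≠ (s (j + M + 1)).2 ^ 2 + (s (j + M + 1)).2 := by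
      rw [← s_eq]
      intro h2
      have h3 : (s (i + M + 1)).1 = (s (j + M + 1)).1 :=
        Nat.pow_left_injective (by norm_num : 2 ≠ 0) (by simpa using h2)
      have := s_mono.injective h3
      omega
    refine ⟨![(s (i + M + 1)).1, (s (j + M + 1)).2], ?_, ?_, ?_⟩
    · intro k
      fin_cases k
      · have := s_mono.id_le (i + M + 1)
        simp only [id] at this
        simp only [Fin.zero_eta, Matrix.cons_val_zero]
        omega
      · have := s_mono2.id_le (j + M + 1)
        simp only [id] at this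
        simp only [Fin.mk_one, Matrix.cons_val_one, Matrix.cons_val_zero]
        omega
    · intro P hP Q hQ
      simp only [Finset.mem_insert, Finset.mem_singleton] at hP hQ
      rcases hP with rfl | rfl <;> rcases hQ with rfl | rfl <;> simp [← s_eq, h]
    · intro P hP Q hQ hPQ
      simp only [Finset.mem_insert, Finset.mem_singleton] at hP hQ
      rcases hP with rfl | rfl <;> rcases hQ with rfl | rfl
      · exact absurd rfl hPQ
      · simpa using hd
      · simpa using hd.symm
      · exact absurd rfl hPQ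
  · intro h
    obtain ⟨a, ha, H⟩ := h 2 fun p => ⟨padicValNat 2 p.leadingCoeff % 2, Nat.mod_lt _ (by norm_num)⟩
    have := H (2 * MvPolynomial.X 0 ^ 2) (by simp) (MvPolynomial.X 1 ^ 2 + MvPolynomial.X 1) (by simp)
    have e1 : (2 * a 0 ^ 2).leadingCoeff = 2 * (a 0).leadingCoeff ^ 2 := by
      rw [leadingCoeff_mul, leadingCoeff_pow]
      congr 1
      exact leadingCoeff_C (2:ℕ)
    have e2 : (a 1 ^ 2 + a 1).leadingCoeff = (a 1).leadingCoeff ^ 2 := by
      rw [leadingCoeff_add_of_degree_lt', leadingCoeff_pow]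
      have h0 : 0 < (a 1).natDegree := by
        rw [Nat.pos_iff_ne_zero]
        intro h0
        refine (ha 1).1 ?_
        rw [eq_C_of_natDegree_eq_zero h0, (ha 1).2, C_0]
      refine degree_lt_degree ?_
      rw [natDegree_pow]
      omega
    have n0 : (a 0).leadingCoeff ≠ 0 := leadingCoeff_ne_zero.2 (ha 0).1
    have n1 : (a 1).leadingCoeff ≠ 0 := leadingCoeff_ne_zero.2 (ha 1).1
    simp only [map_mul, map_pow, MvPolynomial.aeval_X, map_add, map_ofNat, e1, e2, Fin.mk.injEq] at this
    rw [padicValNat.mul (by norm_num) (pow_ne_zero _ n0), padicValNat.pow, padicValNat.pow,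
      padicValNat.self (by norm_num)] at this
    omega

end Pool.Agent.Results.MP_700e60_co.Counterexample
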